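import Pool.Agent.W476.TP.Tf

/-!
# Project TP, part TLT: the sharp map of `ℂ_[p]`
-/

set_option autoImplicit false
set_option linter.unusedSectionVars false

namespace Pool.Agent.W476.TP

open MvPolynomial Pool.Agent.W292.FM Ideal

variable {p : ℕ} [hp : Fact p.Prime]

/-- The untilt of an element of the tilt, as an element of `ℂ_[p]`. -/
noncomputable def ua (x : TT p) : ℂ_[p] := (x.untilt : ℂ_[p])

theorem ua_mul (x y : TT p) : ua (x * y) = ua x * ua y := by simp [ua]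

theorem ua_one : ua (1 : TT p) = 1 := by simp [ua]

theorem ua_zero : ua (0 : TT p) = 0 := by
  have h0 : ∀ n : ℕ, ((fun _ => 0 : ℕ → 𝓞_ℂ_[p]) (n + 1)) ^ p = (fun _ => 0 : ℕ → 𝓞_ℂ_[p]) n :=
    fun n => zero_pow hp.out.ne_zero
  have h : (0 : TT p) = mkT (fun _ => 0) h0 := by
    refine Perfection.ext fun n => ?_
    change PreTilt.coeff n (0 : TT p) = PreTilt.coeff n (mkT (fun _ => 0) h0)
    rw [coeff_mkT, map_zero, map_zero]
  rw [ua, h, untilt_mkT]
  simp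

theorem ua_pow (x : TT p) (n : ℕ) : ua (x ^ n) = ua x ^ n := by simp [ua]

theorem seq_pow (x : TT p) (n : ℕ) : ((seqT x n : 𝓞_ℂ_[p]) : ℂ_[p]) ^ p ^ n = ua x := by
  have h1 := pow_ppow_eq (a := seqT x) (seqT_succ_pow x) n
  have := congrArg (fun y : 𝓞_ℂ_[p] => (y : ℂ_[p])) h1
  simpa [seqT_zero, ua] using this

theorem seq_norm (x : TT p) (n : ℕ) : ‖((seqT x n : 𝓞_ℂ_[p]) : ℂ_[p])‖ ^ p ^ n = ‖ua x‖ := by
  rw [← norm_pow, seq_pow]

theorem ua_norm_le (x : TT p) : ‖ua x‖ ≤ 1 := norm_int_le p _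

theorem ext_seq {x y : TT p} (h : ∀ n, PreTilt.coeff n x = PreTilt.coeff n y) : x = y :=
  Perfection.ext fun n => h n

theorem ua_eq_zero {x : TT p} (h : ua x = 0) : x = 0 := by
  refine ext_seq fun n => ?_
  have h1 := seq_norm x n
  rw [h, norm_zero] at h1
  have h2 : ((seqT x n : 𝓞_ℂ_[p]) : ℂ_[p]) = 0 :=
    norm_eq_zero.1 (pow_eq_zero_iff (pow_ne_zero _ hp.out.ne_zero) |>.1 h1)
  have h3 : seqT x n = 0 := Subtype.ext (by simpa using h2)
  rw [← mk_seqT, h3, map_zero, map_zero]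

theorem ua_ne_zero {x : TT p} (h : x ≠ 0) : ua x ≠ 0 := fun h1 => h (ua_eq_zero h1)

theorem sharp_eq {z : TF p} {a b : TT p} (hb : b ≠ 0)
    (h : algebraMap (TT p) (TF p) a = z * algebraMap (TT p) (TF p) b) : sharp z = ua a / ua b := by
  have h1 := IsLocalization.sec_spec (nonZeroDivisors (TT p)) z
  set s := IsLocalization.sec (nonZeroDivisors (TT p)) z with hs
  have hs0 : (s.2 : TT p) ≠ 0 := nonZeroDivisors.ne_zero s.2.2
  have h2 : algebraMap (TT p) (TF p) (a * s.2) = algebraMap (TT p) (TF p) (s.1 * b) := by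
    rw [map_mul, map_mul, h, ← h1]
    ring
  have h3 : a * s.2 = s.1 * b := IsFractionRing.injective (TT p) (TF p) h2
  have h4 : ua a * ua (s.2 : TT p) = ua s.1 * ua b := by rw [← ua_mul, ← ua_mul, h3]
  change ua s.1 / ua (s.2 : TT p) = ua a / ua b
  rw [div_eq_div_iff (ua_ne_zero hs0) (ua_ne_zero hb), h4]

theorem exists_frac (z : TF p) : ∃ a b : TT p, b ≠ 0 ∧
    algebraMap (TT p) (TF p) a = z * algebraMap (TT p) (TF p) b := by
  have h1 := IsLocalization.sec_spec (nonZeroDivisors (TT p)) z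
  exact ⟨_, _, nonZeroDivisors.ne_zero (IsLocalization.sec (nonZeroDivisors (TT p)) z).2.2, h1.symm⟩

theorem sharp_alg (a : TT p) : sharp (algebraMap (TT p) (TF p) a) = ua a := by
  rw [sharp_eq (a := a) (b := 1) one_ne_zero (by rw [map_one, mul_one]), ua_one, div_one]

theorem sharp_mul (z w : TF p) : sharp (z * w) = sharp z * sharp w := by
  obtain ⟨a, b, hb, h⟩ := exists_frac z
  obtain ⟨c, d, hd, h'⟩ := exists_frac w
  rw [sharp_eq (a := a * c) (b := b * d) (mul_ne_zero hb hd) (by rw [map_mul, map_mul, h, h']; ring),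
    sharp_eq hb h, sharp_eq hd h', ua_mul, ua_mul, mul_div_mul_comm]

theorem sharp_one : sharp (1 : TF p) = 1 := by
  rw [← map_one (algebraMap (TT p) (TF p)), sharp_alg, ua_one]

theorem sharp_zero : sharp (0 : TF p) = 0 := by
  rw [← map_zero (algebraMap (TT p) (TF p)), sharp_alg, ua_zero]

/-- The sharp map as a homomorphism. -/
noncomputable def shT : TF p →*₀ ℂ_[p] where
  toFun := sharp
  map_zero' := sharp_zero
  map_one' := sharp_one
  map_mul' := sharp_mul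

theorem shT_apply (z : TF p) : shT z = sharp z := rfl

theorem ua_surj (c : ℂ_[p]) (hc : ‖c‖ ≤ 1) : ∃ x : TT p, ua x = c := by
  choose f hf using exists_root (p := p)
  let a : ℕ → 𝓞_ℂ_[p] := fun n => Nat.rec (⟨c, (mem_int_iff p c).2 hc⟩ : 𝓞_ℂ_[p]) (fun _ y => f y) n
  have ha : ∀ n, a (n + 1) ^ p = a n := fun n => hf _
  refine ⟨mkT a ha, ?_⟩
  rw [ua, untilt_mkT]
  rfl

theorem shT_surj : Function.Surjective (shT (p := p)) := by
  intro c
  by_cases hc : ‖c‖ ≤ 1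
  · obtain ⟨x, hx⟩ := ua_surj c hc
    exact ⟨algebraMap _ _ x, by rw [shT_apply, sharp_alg, hx]⟩
  · push Not at hc
    have h1 : ‖c⁻¹‖ ≤ 1 := by
      rw [norm_inv]
      exact inv_le_one_of_one_le₀ hc.le
    obtain ⟨x, hx⟩ := ua_surj c⁻¹ h1
    exact ⟨(algebraMap _ _ x)⁻¹, by rw [map_inv₀, shT_apply, sharp_alg, hx, inv_inv]⟩

/-- divisibility in the tilt is decided by the norm of the untilts -/
theorem dvd_of_norm_le {a b : TT p} (hb : b ≠ 0) (h : ‖ua a‖ ≤ ‖ua b‖) : b ∣ a := by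
  have hpos : ∀ n, 0 < ‖(seqT b n : ℂ_[p])‖ := by
    intro n
    rcases (norm_nonneg (seqT b n : ℂ_[p])).lt_or_eq with h1 | h1
    · exact h1
    · exfalso
      have h2 := seq_norm b n
      rw [← h1, zero_pow (pow_ne_zero _ hp.out.ne_zero)] at h2
      exact ua_ne_zero hb (norm_eq_zero.1 h2.symm)
  have hn : ∀ n, ‖(seqT a n : ℂ_[p])‖ ≤ ‖(seqT b n : ℂ_[p])‖ := by
    intro n
    have h3 : ‖(seqT a n : ℂ_[p])‖ ^ p ^ n ≤ ‖(seqT b n : ℂ_[p])‖ ^ p ^ n := by
      rw [seq_norm, seq_norm]; exact h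
    exact le_of_pow_le_pow_left₀ (pow_ne_zero _ hp.out.ne_zero) (norm_nonneg _) h3
  let c : ℕ → 𝓞_ℂ_[p] := fun n => ⟨(seqT a n : ℂ_[p]) / (seqT b n : ℂ_[p]), by
    rw [mem_int_iff, norm_div, div_le_one (hpos n)]; exact hn n⟩
  have hc : ∀ n, c (n + 1) ^ p = c n := by
    intro n
    apply Subtype.ext
    have h1 : ((seqT a (n + 1) : 𝓞_ℂ_[p]) : ℂ_[p]) ^ p = (seqT a n : ℂ_[p]) := by
      rw [← seqT_succ_pow a n]; simp
    have h2 : ((seqT b (n + 1) : 𝓞_ℂ_[p]) : ℂ_[p]) ^ p = (seqT b n : ℂ_[p]) := by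
      rw [← seqT_succ_pow b n]; simp
    simp only [c, SubmonoidClass.mk_pow, div_pow, h1, h2]
  have hcp : ∀ n, seqT b n * c n = seqT a n := by
    intro n
    apply Subtype.ext
    have : ((seqT b n * c n : 𝓞_ℂ_[p]) : ℂ_[p]) = (seqT b n : ℂ_[p]) * (c n : ℂ_[p]) := by simp
    rw [this]
    exact mul_div_cancel₀ _ (norm_pos_iff.1 (hpos n))
  refine ⟨mkT c hc, ext_seq fun n => ?_⟩
  rw [map_mul, coeff_mkT, ← mk_seqT b, ← map_mul, hcp, mk_seqT]

theorem exists_int (w : TF p) (h : ‖sharp w‖ ≤ 1) : ∃ x : TT p, algebraMap (TT p) (TF p) x = w := by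
  obtain ⟨a, b, hb, hab⟩ := exists_frac w
  rw [sharp_eq hb hab, norm_div, div_le_one (norm_pos_iff.2 (ua_ne_zero hb))] at h
  obtain ⟨c, hc⟩ := dvd_of_norm_le hb h
  refine ⟨c, ?_⟩
  have hb' : algebraMap (TT p) (TF p) b ≠ 0 := by
    rw [Ne, map_eq_zero_iff _ (IsFractionRing.injective (TT p) (TF p))]
    exact hb
  rw [hc, map_mul, mul_comm] at hab
  exact mul_right_cancel₀ hb' hab

theorem ua_add (x y : TT p) : ‖ua (x + y) - (ua x + ua y)‖ ≤ ‖(p : ℂ_[p])‖ := by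
  have h : (Ideal.Quotient.mk (span {(p : 𝓞_ℂ_[p])}) ((x + y).untilt - (x.untilt + y.untilt))) = 0 := by
    rw [map_sub, map_add (Ideal.Quotient.mk _)]
    have h1 := mk_seqT (x + y) 0
    have h2 := mk_seqT x 0
    have h3 := mk_seqT y 0
    rw [seqT_zero] at h1 h2 h3
    rw [h1, h2, h3, map_add, sub_self]
  rw [mk_eq_zero_iff] at h
  simpa [ua] using h

theorem norm_p_pos' : 0 < ‖(p : ℂ_[p])‖ := norm_p_pos p

theorem shT_add (u v : TF p) : ‖shT (u + v) - (shT u + shT v)‖ ≤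
    ‖(p : ℂ_[p])‖ * max ‖shT u‖ ‖shT v‖ := by
  have main : ∀ u v : TF p, ‖shT u‖ ≤ ‖shT v‖ → ‖shT (u + v) - (shT u + shT v)‖ ≤
      ‖(p : ℂ_[p])‖ * ‖shT v‖ := by
    intro u v huv
    by_cases hv : v = 0
    · subst hv
      rw [map_zero, norm_zero] at huv
      have hu : shT u = 0 := norm_le_zero_iff.1 huv
      simp [hu]
    · have hv' : shT v ≠ 0 := (map_ne_zero (shT (p := p))).2 hv
      have hw : ‖sharp (u / v)‖ ≤ 1 := by
        rw [← shT_apply, map_div₀, norm_div, div_le_one (norm_pos_iff.2 hv')]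
        exact huv
      obtain ⟨x, hx⟩ := exists_int _ hw
      have h1 : u = v * algebraMap (TT p) (TF p) x := by
        rw [hx]; field_simp
      have h2 : u + v = v * algebraMap (TT p) (TF p) (x + 1) := by
        rw [h1, map_add, map_one]; ring
      rw [h2, h1, map_mul, map_mul, shT_apply, shT_apply (algebraMap _ _ _), shT_apply
        (algebraMap _ _ _), sharp_alg, sharp_alg]
      have h3 := ua_add x 1
      rw [ua_one] at h3
      have h4 : sharp v * ua (x + 1) - (sharp v * ua x + sharp v) =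
          sharp v * (ua (x + 1) - (ua x + 1)) := by ring
      rw [h4, norm_mul, mul_comm]
      exact mul_le_mul_of_nonneg_right h3 (norm_nonneg _)
  rcases le_total ‖shT u‖ ‖shT v‖ with h | h
  · rw [max_eq_right h]; exact main u v h
  · rw [max_eq_left h, add_comm u v, add_comm (shT u)]; exact main v u h

/-- The sharp map of `ℂ_[p]`. -/
noncomputable def ShT (p : ℕ) [Fact p.Prime] : Sharp p ℂ_[p] (TF p) where
  sh := shT
  surj := shT_surj
  add := shT_add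

theorem ShT_sh (z : TF p) : (ShT p).sh z = sharp z := rfl

theorem coeff_eq_zero_iff (x : TT p) (n : ℕ) :
    PreTilt.coeff n x = 0 ↔ ‖ua x‖ ≤ ‖(p : ℂ_[p])‖ ^ p ^ n := by
  rw [← mk_seqT, mk_eq_zero_iff, ← seq_norm x n]
  exact (pow_le_pow_iff_left₀ (norm_nonneg _) (norm_nonneg _) (pow_ne_zero _ hp.out.ne_zero)).symm

theorem norm_p_lt : ‖(p : ℂ_[p])‖ < 1 := norm_p_lt_one p

theorem cpl_int (x : ℕ → TT p) (hx : Filter.Tendsto (fun k => ‖ua (x k)‖) Filter.atTop (nhds 0)) :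
    ∃ s : TT p, ∀ n, ∃ K, ∀ k, K ≤ k →
      ‖ua (s - ∑ i ∈ Finset.range k, x i)‖ ≤ ‖(p : ℂ_[p])‖ ^ p ^ n := by
  have h1 : ∀ n, ∃ K, ∀ k, K ≤ k → PreTilt.coeff n (x k) = 0 := by
    intro n
    have := (hx.eventually (gt_mem_nhds (pow_pos (norm_p_pos' (p := p)) (p ^ n))))
    obtain ⟨K, hK⟩ := Filter.eventually_atTop.1 this
    exact ⟨K, fun k hk => (coeff_eq_zero_iff _ _).2 (hK k hk).le⟩
  choose K hK using h1
  set S : ℕ → TT p := fun k => ∑ i ∈ Finset.range k, x i with hS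
  have h2 : ∀ n k, K n ≤ k → PreTilt.coeff n (S k) = PreTilt.coeff n (S (K n)) := by
    intro n k hk
    induction k, hk using Nat.le_induction with
    | base => rfl
    | succ k hk ih =>
      rw [← ih]
      simp only [hS]
      rw [Finset.sum_range_succ, map_add, hK n k hk, add_zero]
  have h3 : ∀ n, PreTilt.coeff (n + 1) (S (K (n + 1))) ^ p = PreTilt.coeff n (S (K n)) := by
    intro n
    rw [← h2 (n + 1) (max (K n) (K (n + 1))) (le_max_right _ _),
      ← h2 n (max (K n) (K (n + 1))) (le_max_left _ _)]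
    exact PreTilt.coeff_pow_p _ _
  let s : TT p := ⟨fun n => PreTilt.coeff n (S (K n)), h3⟩
  have hs : ∀ n, PreTilt.coeff n s = PreTilt.coeff n (S (K n)) := fun n => rfl
  refine ⟨s, fun n => ⟨K n, fun k hk => ?_⟩⟩
  rw [← coeff_eq_zero_iff, map_sub, hs, ← h2 n k hk, sub_self]

theorem cpl : Cpl (ShT p) := by
  intro a ha
  obtain ⟨K0, hK0⟩ := Filter.eventually_atTop.1 (ha.eventually (gt_mem_nhds one_pos))
  have h1 : ∀ k, ∃ x : TT p, algebraMap (TT p) (TF p) x = a (K0 + k) := fun k =>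
    exists_int _ (hK0 (K0 + k) (Nat.le_add_right _ _)).le
  choose x hx using h1
  have h2 : Filter.Tendsto (fun k => ‖ua (x k)‖) Filter.atTop (nhds 0) := by
    have h3 : ∀ k, ‖ua (x k)‖ = ‖(ShT p).sh (a (k + K0))‖ := by
      intro k
      rw [ShT_sh, add_comm, ← hx, sharp_alg]
    simp_rw [h3]
    exact ha.comp (Filter.tendsto_add_atTop_nat K0)
  obtain ⟨s, hs⟩ := cpl_int x h2
  refine ⟨algebraMap (TT p) (TF p) s + ∑ i ∈ Finset.range K0, a i, ?_⟩
  have h4 : ∀ k, algebraMap (TT p) (TF p) s + ∑ i ∈ Finset.range K0, a i -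
      ∑ i ∈ Finset.range (k + K0), a i =
        algebraMap (TT p) (TF p) (s - ∑ i ∈ Finset.range k, x i) := by
    intro k
    rw [add_comm k K0, Finset.sum_range_add, map_sub, map_sum]
    simp_rw [hx]
    ring
  rw [← Filter.tendsto_add_atTop_iff_nat K0]
  simp_rw [h4, ShT_sh, sharp_alg]
  rw [Metric.tendsto_atTop]
  intro ε hε
  have h5 : ∃ n : ℕ, ‖(p : ℂ_[p])‖ ^ p ^ n < ε := by
    obtain ⟨n, hn⟩ := exists_pow_lt_of_lt_one hε (norm_p_lt (p := p))
    refine ⟨n, lt_of_le_of_lt ?_ hn⟩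
    exact pow_le_pow_of_le_one (norm_nonneg _) norm_p_lt.le (Nat.lt_pow_self hp.out.one_lt).le
  obtain ⟨n, hn⟩ := h5
  obtain ⟨K, hK⟩ := hs n
  refine ⟨K, fun k hk => ?_⟩
  rw [dist_zero_right, norm_norm]
  exact (hK k hk).trans_lt hn

instance charP_TF : CharP (TF p) p :=
  charP_of_injective_algebraMap (IsFractionRing.injective (TT p) (TF p)) p

/-- Part TLT of project TP. -/
theorem t_TLT : S_TLT := by
  intro p hp
  exact ⟨charP_TF, ShT p, fun _ => rfl, cpl⟩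

/-- The tilt of `ℂ_[p]` is perfect. -/
theorem t_perf : ∀ (p : ℕ) [Fact p.Prime] (u : TF p), ∃ v, v ^ p = u := by
  intro p hp u
  obtain ⟨a, b, hb, hab⟩ := exists_frac u
  obtain ⟨a', ha'⟩ : ∃ a' : TT p, a' ^ p = a :=
    ⟨(_root_.frobeniusEquiv (TT p) p).symm a,
      RingEquiv.apply_symm_apply (_root_.frobeniusEquiv (TT p) p) a⟩
  obtain ⟨b', hb'⟩ : ∃ b' : TT p, b' ^ p = b :=
    ⟨(_root_.frobeniusEquiv (TT p) p).symm b,
      RingEquiv.apply_symm_apply (_root_.frobeniusEquiv (TT p) p) b⟩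
  have hb0 : algebraMap (TT p) (TF p) b ≠ 0 := by
    rw [Ne, map_eq_zero_iff _ (IsFractionRing.injective (TT p) (TF p))]
    exact hb
  refine ⟨algebraMap (TT p) (TF p) a' / algebraMap (TT p) (TF p) b', ?_⟩
  rw [div_pow, ← map_pow, ← map_pow, ha', hb', hab, mul_div_cancel_right₀ _ hb0]

end Pool.Agent.W476.TP
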